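import Mathlib
import Pool.Agent.H423R2.ZH.Stubs

set_option autoImplicit false

open Finset

namespace Pool.Agent.H764ZH

theorem sph : Pool.Agent.H423R2.ZH.S_SPH := by
  intro m r
  classical
  obtain ⟨box, hbox⟩ : ∃ box : Finset (Fin m → ℕ), box = Fintype.piFinset (fun _ => range r) :=
    ⟨_, rfl⟩
  have hcard : box.card = r ^ m := by rw [hbox]; simp
  obtain ⟨n, hn⟩ : ∃ n, n = m * r ^ 2 + 1 := ⟨_, rfl⟩
  have hmaps : ∀ f ∈ box, ∑ i, f i ^ 2 ∈ range n := by
    intro f hf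
    rw [hbox, Fintype.mem_piFinset] at hf
    rw [mem_range, hn, Nat.lt_succ_iff]
    calc ∑ i, f i ^ 2 ≤ ∑ _i : Fin m, r ^ 2 :=
          sum_le_sum fun i _ => Nat.pow_le_pow_left (mem_range.mp (hf i)).le 2
      _ = m * r ^ 2 := by simp
  have hsum := card_eq_sum_card_fiberwise hmaps
  have hex : ∃ R ∈ range n, r ^ m ≤ (box.filter (fun f => ∑ i, f i ^ 2 = R)).card * n := by
    by_contra hcon
    push Not at hcon
    have h1 : ∑ R ∈ range n, ((box.filter (fun f => ∑ i, f i ^ 2 = R)).card * n + 1) ≤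
        ∑ _R ∈ range n, r ^ m := sum_le_sum fun R hR => hcon R hR
    rw [sum_add_distrib, ← sum_mul, ← hsum, hcard] at h1
    simp only [sum_const, card_range, smul_eq_mul, mul_one] at h1
    have h2 : r ^ m * n = n * r ^ m := mul_comm _ _
    omega
  obtain ⟨R, -, hR⟩ := hex
  refine ⟨box.filter (fun f => ∑ i, f i ^ 2 = R), ?_, ?_, ?_⟩
  · intro f hf i
    rw [mem_filter, hbox, Fintype.mem_piFinset] at hf
    exact mem_range.mp (hf.1 i)
  · intro f hf g hg h hh hfgh
    rw [mem_filter] at hf hg hh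
    have e1 : ∑ i, ((f i : ℤ)) ^ 2 = R := by exact_mod_cast hf.2
    have e2 : ∑ i, ((g i : ℤ)) ^ 2 = R := by exact_mod_cast hg.2
    have e3 : ∑ i, ((h i : ℤ)) ^ 2 = R := by exact_mod_cast hh.2
    have e4 : ∀ i, 3 * (h i : ℤ) = 2 * f i + g i := fun i => by exact_mod_cast hfgh i
    have e5 : ∑ i, (2 * ((f i : ℤ) - g i) ^ 2) = 0 := by
      have : ∀ i, 2 * ((f i : ℤ) - g i) ^ 2 =
          6 * (f i : ℤ) ^ 2 + 3 * (g i : ℤ) ^ 2 - 9 * (h i : ℤ) ^ 2 := by
        intro i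
        have h9 : 9 * (h i : ℤ) ^ 2 = (2 * (f i : ℤ) + g i) ^ 2 := by rw [← e4 i]; ring
        rw [h9]; ring
      rw [sum_congr rfl fun i _ => this i, sum_sub_distrib, sum_add_distrib, ← mul_sum, ← mul_sum,
        ← mul_sum, e1, e2, e3]
      ring
    have e6 := (sum_eq_zero_iff_of_nonneg (fun i _ => by positivity)).mp e5
    funext i
    have e7 := e6 i (mem_univ i)
    have e8 : (f i : ℤ) - g i = 0 := by
      have : ((f i : ℤ) - g i) ^ 2 = 0 := by linarith
      exact pow_eq_zero_iff (two_ne_zero) |>.mp this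
    have e9 := e4 i
    omega
  · rw [hn] at hR
    exact hR

end Pool.Agent.H764ZH
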